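import Mathlib
import Pool.Agent.H853R3.Task469G
import Pool.Agent.H82R3.TaskPZG1
import Pool.Agent.H180R3.PO.Stmts

set_option autoImplicit false

open MeasureTheory Set Filter Topology

namespace Pool.Agent.H82R3.POHG

open Pool.Agent.H853R3.Bol Pool.Agent.H902R3.PZ Pool.Agent.H180R3.PO Pool.Agent.H82R3.PZG1

/-- powers of the logarithm -/
lemma log_pow_bound (j : ℕ) : ∃ B : ℝ, 0 ≤ B ∧ ∀ x : ℝ, 0 < x → |Real.log x ^ j| ≤ B * (√x + (√x)⁻¹) := by
  refine ⟨2 ^ j * j.factorial, by positivity, fun x hx => ?_⟩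
  have h1 := Real.pow_div_factorial_le_exp (|Real.log x| / 2) (by positivity) j
  have h2 : Real.exp (|Real.log x| / 2) ≤ √x + (√x)⁻¹ := by
    have e1 : Real.exp (Real.log x / 2) = √x := by rw [Real.exp_half, Real.exp_log hx]
    have e2 : Real.exp (-(Real.log x / 2)) = (√x)⁻¹ := by rw [Real.exp_neg, e1]
    have h3 : 0 < √x := Real.sqrt_pos.2 hx
    rcases abs_cases (Real.log x) with ⟨h, _⟩ | ⟨h, _⟩
    · rw [h, e1]
      have : 0 < (√x)⁻¹ := inv_pos.2 h3
      linarith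
    · rw [h, show -Real.log x / 2 = -(Real.log x / 2) by ring, e2]
      linarith
  have h4 : |Real.log x ^ j| = 2 ^ j * j.factorial * ((|Real.log x| / 2) ^ j / j.factorial) := by
    rw [abs_pow, div_pow]
    have : (j.factorial : ℝ) ≠ 0 := by positivity
    field_simp
  rw [h4]
  exact mul_le_mul_of_nonneg_left (h1.trans h2) (by positivity)

/-- `x ^ m (√x + 1/√x) ≤ (1 + x²) ^ m` -/
lemma sqrt_bound (m : ℕ) (hm : 1 ≤ m) (x : ℝ) (hx : 0 < x) : x ^ m * (√x + (√x)⁻¹) ≤ (1 + x ^ 2) ^ m := by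
  obtain ⟨k, rfl⟩ : ∃ k, m = k + 1 := ⟨m - 1, by omega⟩
  have h3 : 0 < √x := Real.sqrt_pos.2 hx
  have hsq : √x * √x = x := Real.mul_self_sqrt hx.le
  have h1 : x * (√x + (√x)⁻¹) ≤ 1 + x ^ 2 := by
    have e1 : x * (√x + (√x)⁻¹) = √x * (x + 1) := by
      have : x * (√x)⁻¹ = √x := by
        rw [← div_eq_mul_inv, div_eq_iff h3.ne', hsq]
      rw [mul_add, this]; ring
    rw [e1]
    nlinarith [sq_nonneg (√x - 1), sq_nonneg (x - 1), hx]
  have h2 : x ^ k ≤ (1 + x ^ 2) ^ k := by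
    apply pow_le_pow_left₀ hx.le
    nlinarith [sq_nonneg (x - 1)]
  calc x ^ (k + 1) * (√x + (√x)⁻¹) = x ^ k * (x * (√x + (√x)⁻¹)) := by ring
    _ ≤ (1 + x ^ 2) ^ k * (1 + x ^ 2) := by
        apply mul_le_mul h2 h1 (by positivity) (by positivity)
    _ = (1 + x ^ 2) ^ (k + 1) := by ring

/-- integrability of `x ^ m * K` times a function growing like a power of the logarithm -/
lemma int_mul' (m : ℕ) (hm : 1 ≤ m) (t : ℝ) (ht : 0 < t) (g : ℝ → ℝ) (hg : ContinuousOn g (Ioi 0)) (B : ℝ) (hB0 : 0 ≤ B)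
    (hB : ∀ x, 0 < x → |g x| ≤ B * (√x + (√x)⁻¹)) :
    IntegrableOn (fun x : ℝ => x ^ m * g x * K (2 * m + 1) t x) (Ioi 0) := by
  have hmin : 0 < min (t ^ 2) 1 := lt_min (by positivity) one_pos
  have hdom : IntegrableOn (fun x : ℝ => (B * ((min (t ^ 2) 1)⁻¹ ^ (m + 1))) * (1 + x ^ 2)⁻¹) (Ioi 0) :=
    (integrable_inv_one_add_sq.const_mul _).integrableOn
  refine Integrable.mono' hdom ?_ ?_
  · apply ContinuousOn.aestronglyMeasurable _ measurableSet_Ioi
    apply ContinuousOn.mul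
    · exact (continuous_id.pow m).continuousOn.mul hg
    · apply Continuous.continuousOn
      unfold K
      apply Complex.continuous_re.comp
      apply Continuous.div continuous_const (by fun_prop)
      intro x
      exact pow_ne_zero _ (ne_zero' t ht x)
  · refine (ae_restrict_mem measurableSet_Ioi).mono ?_
    intro x hx
    have hx0 : (0 : ℝ) < x := hx
    rw [Real.norm_eq_abs, abs_mul, abs_mul, abs_of_pos (pow_pos hx0 m)]
    have h1 := K_bound m t x ht
    have h2 : min (t ^ 2) 1 * (1 + x ^ 2) ≤ t ^ 2 + x ^ 2 := by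
      have h3 : min (t ^ 2) 1 ≤ t ^ 2 := min_le_left _ _
      have h4 : min (t ^ 2) 1 ≤ 1 := min_le_right _ _
      nlinarith [sq_nonneg x]
    have h5 := sqrt_bound m hm x hx0
    have h6 : ((t ^ 2 + x ^ 2) ^ (m + 1))⁻¹ ≤ ((min (t ^ 2) 1 * (1 + x ^ 2)) ^ (m + 1))⁻¹ := by
      apply inv_anti₀ (by positivity)
      exact pow_le_pow_left₀ (by positivity) h2 _
    have h7 : x ^ m * |g x| ≤ B * (1 + x ^ 2) ^ m := by
      calc x ^ m * |g x| ≤ x ^ m * (B * (√x + (√x)⁻¹)) :=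
            mul_le_mul_of_nonneg_left (hB x hx0) (by positivity)
        _ = B * (x ^ m * (√x + (√x)⁻¹)) := by ring
        _ ≤ _ := mul_le_mul_of_nonneg_left h5 hB0
    calc x ^ m * |g x| * |K (2 * m + 1) t x|
        ≤ (B * (1 + x ^ 2) ^ m) * ((min (t ^ 2) 1 * (1 + x ^ 2)) ^ (m + 1))⁻¹ := by
          apply mul_le_mul h7 (h1.trans h6) (abs_nonneg _)
          positivity
      _ = B * ((min (t ^ 2) 1)⁻¹ ^ (m + 1)) * (1 + x ^ 2)⁻¹ := by
          rw [mul_pow, mul_inv, pow_succ (1 + x ^ 2), mul_inv, inv_pow]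
          have : (1 + x ^ 2) ^ m ≠ 0 := by positivity
          field_simp

lemma log_cont : ContinuousOn (fun x : ℝ => Real.log x) (Ioi 0) := by
  apply Real.continuousOn_log.mono
  intro x hx
  exact ne_of_gt hx

/-- integrability with `log ^ j` times a bounded continuous function -/
lemma int_log (m : ℕ) (hm : 1 ≤ m) (t : ℝ) (ht : 0 < t) (j : ℕ) (f : ℝ → ℝ) (hf : ContinuousOn f (Ioi 0))
    (hf1 : ∀ x, |f x| ≤ 1) :
    IntegrableOn (fun x : ℝ => x ^ m * (Real.log x ^ j * f x) * K (2 * m + 1) t x) (Ioi 0) := by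
  obtain ⟨B, hB0, hB⟩ := log_pow_bound j
  refine int_mul' m hm t ht _ ((log_cont.pow j).mul hf) B hB0 fun x hx => ?_
  rw [abs_mul]
  calc |Real.log x ^ j| * |f x| ≤ |Real.log x ^ j| * 1 := mul_le_mul_of_nonneg_left (hf1 x) (abs_nonneg _)
    _ ≤ _ := by rw [mul_one]; exact hB x hx

/-- odd functions of the logarithm integrate to zero -/
lemma odd_zero (m : ℕ) (hm : Odd m) (f : ℝ → ℝ) (hf : ∀ x, 0 < x → f x⁻¹ = - f x) :
    ∫ v in Ioi (0 : ℝ), v ^ m * f v * K (2 * m + 1) 1 v = 0 := by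
  set g : ℝ → ℝ := fun v => v ^ m * f v * K (2 * m + 1) 1 v with hg
  have h3 := integral_comp_rpow_Ioi g (p := -1) (by norm_num)
  have h4 : ∫ x in Ioi (0 : ℝ), (|(-1 : ℝ)| * x ^ ((-1 : ℝ) - 1)) • g (x ^ (-1 : ℝ)) =
      ∫ x in Ioi (0 : ℝ), - g x := by
    refine setIntegral_congr_fun measurableSet_Ioi fun x hx => ?_
    have hx0 : (0 : ℝ) < x := hx
    have e1 : x ^ (-1 : ℝ) = x⁻¹ := Real.rpow_neg_one x
    have e2 : x ^ ((-1 : ℝ) - 1) = (x ^ 2)⁻¹ := by
      rw [show ((-1 : ℝ) - 1) = -((2 : ℕ) : ℝ) by norm_num, Real.rpow_neg hx0.le, Real.rpow_natCast]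
    have e3 := K_inv m 1 x one_pos hx0
    rw [inv_one] at e3
    have e5 : (-1 : ℝ) ^ (m + 1) = 1 := (hm.add_one).neg_one_pow
    simp only [hg, smul_eq_mul, abs_neg, abs_one, one_mul]
    rw [e1, e2, e3, e5, hf x hx0]
    have h6 : x ^ m ≠ 0 := (pow_pos hx0 _).ne'
    have h7 : x ^ (2 * m + 2) = x ^ m * x ^ m * x ^ 2 := by ring
    rw [one_mul, one_mul, h7, inv_pow]
    field_simp
  rw [h3, integral_neg] at h4
  linarith

/-- even moments -/
noncomputable def Ic (m : ℕ) (L : ℝ) (j : ℕ) : ℝ :=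
  ∫ v in Ioi (0 : ℝ), v ^ m * (Real.log v ^ j * Real.cos (L * Real.log v)) * K (2 * m + 1) 1 v

/-- odd moments -/
noncomputable def Is (m : ℕ) (L : ℝ) (j : ℕ) : ℝ :=
  ∫ v in Ioi (0 : ℝ), v ^ m * (Real.log v ^ j * Real.sin (L * Real.log v)) * K (2 * m + 1) 1 v

lemma Ic_odd (m : ℕ) (hm : Odd m) (L : ℝ) (j : ℕ) (hj : Odd j) : Ic m L j = 0 := by
  refine odd_zero m hm _ fun x _ => ?_
  rw [Real.log_inv, mul_neg, Real.cos_neg, hj.neg_pow]
  ring

lemma Is_even (m : ℕ) (hm : Odd m) (L : ℝ) (j : ℕ) (hj : Even j) : Is m L j = 0 := by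
  refine odd_zero m hm _ fun x _ => ?_
  rw [Real.log_inv, mul_neg, Real.sin_neg, hj.neg_pow]
  ring

/-- the inhomogeneous term against the kernel -/
lemma RN_int (m : ℕ) (hm : Odd m) (N : ℕ) (C L t : ℝ) (ht : 0 < t) :
    ∫ x in Ioi (0 : ℝ), RN m N C L x * K (2 * m + 1) t x =
      C * (t ^ (m + 1))⁻¹ * ∑ i ∈ Finset.range (2 * N + 1), (Real.log t ^ i * ((2 * N).choose i)) *
        (Real.sin (L * Real.log t) * Ic m L (2 * N - i) + Real.cos (L * Real.log t) * Is m L (2 * N - i)) := by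
  have hm1 : 1 ≤ m := hm.pos
  have h1 := integral_comp_mul_left_Ioi (fun x : ℝ => RN m N C L x * K (2 * m + 1) t x) 0 ht
  rw [mul_zero] at h1
  have h2 : ∫ x in Ioi (0 : ℝ), RN m N C L x * K (2 * m + 1) t x =
      t * ∫ v in Ioi (0 : ℝ), RN m N C L (t * v) * K (2 * m + 1) t (t * v) := by
    rw [h1, smul_eq_mul, ← mul_assoc, mul_inv_cancel₀ ht.ne', one_mul]
  have hIc : ∀ j, IntegrableOn (fun v : ℝ => v ^ m * (Real.log v ^ j * Real.cos (L * Real.log v)) * K (2 * m + 1) 1 v) (Ioi 0) :=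
    fun j => int_log m hm1 1 one_pos j _ (cos_log_cont L) (fun x => Real.abs_cos_le_one _)
  have hIs : ∀ j, IntegrableOn (fun v : ℝ => v ^ m * (Real.log v ^ j * Real.sin (L * Real.log v)) * K (2 * m + 1) 1 v) (Ioi 0) :=
    fun j => int_log m hm1 1 one_pos j _ (sin_log_cont L) (fun x => Real.abs_sin_le_one _)
  have h3 : ∫ v in Ioi (0 : ℝ), RN m N C L (t * v) * K (2 * m + 1) t (t * v) =
      ∫ v in Ioi (0 : ℝ), ∑ i ∈ Finset.range (2 * N + 1),
        ((C * t ^ m * (t ^ (2 * m + 2))⁻¹ * (Real.log t ^ i * ((2 * N).choose i)) * Real.sin (L * Real.log t)) *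
          (v ^ m * (Real.log v ^ (2 * N - i) * Real.cos (L * Real.log v)) * K (2 * m + 1) 1 v) +
        (C * t ^ m * (t ^ (2 * m + 2))⁻¹ * (Real.log t ^ i * ((2 * N).choose i)) * Real.cos (L * Real.log t)) *
          (v ^ m * (Real.log v ^ (2 * N - i) * Real.sin (L * Real.log v)) * K (2 * m + 1) 1 v)) := by
    refine setIntegral_congr_fun measurableSet_Ioi fun v hv => ?_
    have hv0 : (0 : ℝ) < v := hv
    simp only [RN]
    rw [K_scale (2 * m + 1) t v ht, Real.log_mul ht.ne' hv0.ne', mul_add, Real.sin_add, mul_pow, add_pow,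
      Finset.mul_sum, Finset.sum_mul, Finset.sum_mul]
    refine Finset.sum_congr rfl fun i _ => ?_
    ring
  rw [h2, h3, integral_finsetSum]
  · rw [Finset.mul_sum, Finset.mul_sum]
    refine Finset.sum_congr rfl fun i _ => ?_
    rw [integral_add ((hIc _).const_mul _) ((hIs _).const_mul _), integral_const_mul, integral_const_mul]
    change t * (_ * Ic m L (2 * N - i) + _ * Is m L (2 * N - i)) = _
    have h4 : t ^ (2 * m + 2) = t ^ m * t * t ^ (m + 1) := by ring
    have h5 : t ^ m ≠ 0 := (pow_pos ht _).ne'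
    rw [h4]
    field_simp
  · intro i _
    exact ((hIc _).const_mul _).add ((hIs _).const_mul _)

/-- splitting into even and odd indices -/
lemma sum_split (f : ℕ → ℝ) (N : ℕ) : ∑ i ∈ Finset.range (2 * N + 1), f i =
    ∑ i ∈ Finset.range (N + 1), f (2 * i) + ∑ i ∈ Finset.range N, f (2 * i + 1) := by
  induction N with
  | zero => simp
  | succ n ih =>
    rw [show 2 * (n + 1) + 1 = (2 * n + 1) + 1 + 1 by ring, Finset.sum_range_succ, Finset.sum_range_succ, ih,
      Finset.sum_range_succ (fun i => f (2 * i)) (n + 1), Finset.sum_range_succ (fun i => f (2 * i + 1)) n]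
    rw [show 2 * (n + 1) = 2 * n + 1 + 1 by ring]
    ring

theorem taskHG : TaskHG := by
  intro m hmo N L
  have hm : 1 ≤ m := hmo.pos
  set κ : ℝ := 2 * (2 * m + 1).factorial / Real.pi with hκ
  refine ⟨fun i => κ * ((2 * N).choose (2 * i)) * Ic m L (2 * N - 2 * i),
    fun i => κ * ((2 * N).choose (2 * i + 1)) * Is m L (2 * N - (2 * i + 1)), ?_, ?_⟩
  · have hAA : AA m L = κ * ∫ v in Ioi (0 : ℝ), v ^ m * Real.cos (L * Real.log v) * K (2 * m + 1) 1 v := by
      unfold AA K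
      push_cast
      rfl
    simp only [Nat.sub_self, Nat.choose_self, Nat.cast_one, mul_one]
    rw [hAA]
    unfold Ic
    simp only [pow_zero, one_mul]
  intro α u hα hu0 hu C hrel t ht
  have hun : ∀ j, 0 ≤ u j := by
    intro j
    rcases Nat.eq_zero_or_pos j with h | h
    · rw [h, hu0]
    · exact (hu j h).le
  have hti : 0 < t⁻¹ := inv_pos.2 ht
  have h1 := theta_eq t⁻¹ hti (2 * m + 1) (by omega) α u hα hun
  have h2 := theta_eq t ht (2 * m + 1) (by omega) α u hα hun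
  simp_rw [div_eq_mul_inv]
  rw [h1, h2]
  set g : ℝ → ℝ := fun x => (∑' j, α j * Real.cos (u j * x)) * K (2 * m + 1) t⁻¹ x with hg
  have h3 := integral_comp_rpow_Ioi g (p := -1) (by norm_num)
  rw [← h3]
  have e5 : (-1 : ℝ) ^ (m + 1) = 1 := (hmo.add_one).neg_one_pow
  have h4 : ∫ x in Ioi (0 : ℝ), (|(-1 : ℝ)| * x ^ ((-1 : ℝ) - 1)) • g (x ^ (-1 : ℝ)) =
      ∫ x in Ioi (0 : ℝ), (t ^ (2 * m + 2) *
        ((∑' j, α j * Real.cos (u j * x)) * K (2 * m + 1) t x) -
          t ^ (2 * m + 2) * (RN m N C L x * K (2 * m + 1) t x)) := by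
    refine setIntegral_congr_fun measurableSet_Ioi fun x hx => ?_
    have hx0 : (0 : ℝ) < x := hx
    have e1 : x ^ (-1 : ℝ) = x⁻¹ := Real.rpow_neg_one x
    have e2 : x ^ ((-1 : ℝ) - 1) = (x ^ 2)⁻¹ := by
      rw [show ((-1 : ℝ) - 1) = -((2 : ℕ) : ℝ) by norm_num, Real.rpow_neg hx0.le, Real.rpow_natCast]
    have e3 := hrel x hx0
    simp only [hg, smul_eq_mul, abs_neg, abs_one, one_mul]
    rw [e1, e2, K_inv m t x ht hx0, e5, one_mul]
    have e4 : ∑' j, α j * Real.cos (u j * x⁻¹) =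
        (x ^ (2 * m))⁻¹ * ((∑' j, α j * Real.cos (u j * x)) - RN m N C L x) := by
      rw [e3]
      simp_rw [div_eq_mul_inv]
      have hx1 : (x ^ (2 * m))⁻¹ * x ^ (2 * m) = 1 := inv_mul_cancel₀ (pow_pos hx0 _).ne'
      generalize (∑' j, α j * Real.cos (u j * x⁻¹)) = S
      linear_combination (-S) * hx1
    rw [e4, mul_pow]
    have h5 : x ^ (2 * m + 2) = x ^ (2 * m) * x ^ 2 := by ring
    have h6 : x ^ (2 * m) ≠ 0 := (pow_pos hx0 _).ne'
    rw [h5]
    field_simp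
  have hI2 : IntegrableOn (fun x : ℝ => RN m N C L x * K (2 * m + 1) t x) (Ioi 0) := by
    have := (int_log m hm t ht (2 * N) _ (sin_log_cont L) (fun x => Real.abs_sin_le_one _)).const_mul C
    refine this.congr (Eventually.of_forall fun x => ?_)
    simp only [RN]
    ring
  have hI1 : IntegrableOn (fun x : ℝ => (∑' j, α j * Real.cos (u j * x)) * K (2 * m + 1) t x) (Ioi 0) := by
    have hKi : IntegrableOn (K (2 * m + 1) t) (Ioi 0) := (K_int t ht (2 * m + 1) (by omega)).integrableOn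
    refine hKi.bdd_mul (c := ∑' j, |α j|) ?_ ?_
    · apply Continuous.aestronglyMeasurable
      refine continuous_tsum (fun j => by fun_prop) hα (fun j x => ?_)
      rw [Real.norm_eq_abs, abs_mul]
      exact mul_le_of_le_one_right (abs_nonneg _) (Real.abs_cos_le_one _)
    · refine Eventually.of_forall fun x => ?_
      rw [Real.norm_eq_abs]
      have hs : Summable fun j => |α j * Real.cos (u j * x)| := by
        refine Summable.of_nonneg_of_le (fun j => abs_nonneg _) (fun j => ?_) hα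
        rw [abs_mul]
        exact mul_le_of_le_one_right (abs_nonneg _) (Real.abs_cos_le_one _)
      have h8 : ‖∑' j, α j * Real.cos (u j * x)‖ ≤ ∑' j, ‖α j * Real.cos (u j * x)‖ :=
        norm_tsum_le_tsum_norm hs
      rw [Real.norm_eq_abs] at h8
      refine h8.trans ?_
      refine Summable.tsum_le_tsum (fun j => ?_) hs hα
      rw [Real.norm_eq_abs, abs_mul]
      exact mul_le_of_le_one_right (abs_nonneg _) (Real.abs_cos_le_one _)
  rw [h4, integral_sub (hI1.const_mul _) (hI2.const_mul _), integral_const_mul, integral_const_mul,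
    RN_int m hmo N C L t ht]
  have hPhi : PhiN N (fun i => κ * ((2 * N).choose (2 * i)) * Ic m L (2 * N - 2 * i))
      (fun i => κ * ((2 * N).choose (2 * i + 1)) * Is m L (2 * N - (2 * i + 1))) L (Real.log t) =
      κ * ∑ i ∈ Finset.range (2 * N + 1), (Real.log t ^ i * ((2 * N).choose i)) *
        (Real.sin (L * Real.log t) * Ic m L (2 * N - i) + Real.cos (L * Real.log t) * Is m L (2 * N - i)) := by
    rw [sum_split, mul_add, Finset.mul_sum, Finset.mul_sum]
    unfold PhiN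
    congr 1
    · refine Finset.sum_congr rfl fun i hi => ?_
      have hi' := Finset.mem_range.1 hi
      have hz : Is m L (2 * N - 2 * i) = 0 := Is_even m hmo L _ ⟨N - i, by omega⟩
      rw [hz]
      ring
    · refine Finset.sum_congr rfl fun i hi => ?_
      have hi' := Finset.mem_range.1 hi
      have hz : Ic m L (2 * N - (2 * i + 1)) = 0 := Ic_odd m hmo L _ ⟨N - i - 1, by omega⟩
      rw [hz]
      ring
  rw [hPhi]
  have h7 : t ^ (2 * m + 2) = t ^ (m + 1) * t ^ (m + 1) := by ring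
  have h8 : t ^ (m + 1) ≠ 0 := (pow_pos ht _).ne'
  generalize (∑ i ∈ Finset.range (2 * N + 1), (Real.log t ^ i * ((2 * N).choose i)) *
        (Real.sin (L * Real.log t) * Ic m L (2 * N - i) + Real.cos (L * Real.log t) * Is m L (2 * N - i)) : ℝ) = I1
  generalize (∫ x in Ioi (0 : ℝ), (∑' j, α j * Real.cos (u j * x)) * K (2 * m + 1) t x) = I2
  rw [h7, ← hκ]
  have h9 : t ^ (m + 1) * (t ^ (m + 1))⁻¹ = 1 := mul_inv_cancel₀ h8
  linear_combination (-(κ * C * t ^ (m + 1) * I1)) * h9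

end Pool.Agent.H82R3.POHG
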